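import Mathlib

set_option autoImplicit false

/-!
The discrete group `⊕_ℕ ℤ/2`, its coordinate characters, and the functions `PP k`.
-/

namespace Pool.Agent.X189.MG

open Filter Topology

noncomputable section

/-- the discrete group, written multiplicatively -/
abbrev G : Type := Multiplicative (ℕ →₀ ZMod 2)

/-- coordinates -/
def co (x : G) (k : ℕ) : ZMod 2 := (Multiplicative.toAdd x) k

@[simp] lemma co_mul (x y : G) (k : ℕ) : co (x * y) k = co x k + co y k := rfl
@[simp] lemma co_one (k : ℕ) : co 1 k = 0 := rfl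
@[simp] lemma co_inv (x : G) (k : ℕ) : co x⁻¹ k = co x k := by
  show -(co x k) = co x k
  generalize co x k = a
  revert a
  decide

lemma ext_co {x y : G} (h : ∀ k, co x k = co y k) : x = y := by
  apply Multiplicative.toAdd.injective
  exact Finsupp.ext h

lemma inv_self (x : G) : x⁻¹ = x := ext_co fun k => by simp

lemma mul_self (x : G) : x * x = 1 := by
  nth_rewrite 1 [← inv_self x]
  simp

/-- the generators -/
def d (k : ℕ) : G := Multiplicative.ofAdd (Finsupp.single k 1)

lemma co_d_self (k : ℕ) : co (d k) k = 1 := by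
  show (Finsupp.single k (1 : ZMod 2)) k = 1
  simp

lemma co_d_ne {j k : ℕ} (h : j ≠ k) : co (d j) k = 0 := by
  show (Finsupp.single j (1 : ZMod 2)) k = 0
  simp [h]

/-- the coordinate characters -/
def chi (k : ℕ) (x : G) : ℂ := if co x k = 0 then 1 else -1

lemma chi_mul (k : ℕ) (x y : G) : chi k (x * y) = chi k x * chi k y := by
  unfold chi
  rw [co_mul]
  generalize co x k = a
  generalize co y k = b
  have ha : a = 0 ∨ a = 1 := by revert a; decide
  have hb : b = 0 ∨ b = 1 := by revert b; decide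
  have h1 : (1 : ZMod 2) ≠ 0 := by decide
  have h2 : (1 : ZMod 2) + 1 = 0 := by decide
  rcases ha with rfl | rfl <;> rcases hb with rfl | rfl <;> simp [h1, h2]

lemma norm_chi (k : ℕ) (x : G) : ‖chi k x‖ = 1 := by
  unfold chi
  split_ifs <;> simp

lemma chi_d_self (k : ℕ) : chi k (d k) = -1 := by
  unfold chi
  rw [co_d_self]
  simp

lemma chi_d_ne {j k : ℕ} (h : j ≠ k) : chi k (d j) = 1 := by
  unfold chi
  rw [co_d_ne h]
  simp

lemma chi_sq (k : ℕ) (x : G) : chi k x * chi k x = 1 := by
  rw [← chi_mul, mul_self]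
  simp [chi]

/-- the finite subgroup of elements supported on the first `k` coordinates -/
def HS (k : ℕ) : Set G := {x | ∀ i, k ≤ i → co x i = 0}

lemma HS_finite (k : ℕ) : (HS k).Finite := by
  have : Set.InjOn (fun x : G => fun i : Fin k => co x i) (HS k) := by
    intro x hx y hy h
    apply ext_co
    intro i
    by_cases hi : i < k
    · exact congrFun h ⟨i, hi⟩
    · push Not at hi
      rw [hx i hi, hy i hi]
  exact Set.Finite.of_finite_image (Set.toFinite _) this

/-- the finite subgroup as a finset -/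
def H (k : ℕ) : Finset G := (HS_finite k).toFinset

lemma mem_H {k : ℕ} {x : G} : x ∈ H k ↔ ∀ i, k ≤ i → co x i = 0 := by
  simp [H, HS]

lemma mul_mem_H {k : ℕ} {x y : G} (hx : x ∈ H k) (hy : y ∈ H k) : x * y ∈ H k := by
  rw [mem_H] at *
  intro i hi
  rw [co_mul, hx i hi, hy i hi, add_zero]

lemma mul_mem_H_iff {k : ℕ} {x y : G} (hx : x ∈ H k) : x * y ∈ H k ↔ y ∈ H k := by
  constructor
  · intro h
    have := mul_mem_H hx h
    rwa [← mul_assoc, mul_self, one_mul] at this
  · exact mul_mem_H hx

lemma d_mem_H {j k : ℕ} (h : j < k) : d j ∈ H k := by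
  rw [mem_H]
  intro i hi
  exact co_d_ne (by omega)

lemma one_mem_H (k : ℕ) : (1 : G) ∈ H k := by
  rw [mem_H]
  intro i _
  rfl

lemma H_sum_mul {k : ℕ} {a : G} (ha : a ∈ H k) (F : G → ℂ) :
    ∑ h ∈ H k, F (a * h) = ∑ h ∈ H k, F h := by
  refine Finset.sum_nbij' (fun h => a * h) (fun h => a * h) ?_ ?_ ?_ ?_ ?_
  · intro h hh
    exact mul_mem_H ha hh
  · intro h hh
    exact mul_mem_H ha hh
  · intro h _
    rw [← mul_assoc, mul_self, one_mul]
  · intro h _
    rw [← mul_assoc, mul_self, one_mul]
  · intro h _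
    rfl

lemma chi_H {k : ℕ} {h : G} (hh : h ∈ H k) : chi k h = 1 := by
  rw [mem_H] at hh
  unfold chi
  rw [hh k le_rfl]
  simp

lemma chi_eventually (x : G) : ∀ᶠ k in atTop, chi k x = 1 := by
  have hfin := (Multiplicative.toAdd x).support.finite_toSet
  obtain ⟨N, hN⟩ := hfin.bddAbove
  filter_upwards [eventually_gt_atTop N] with k hk
  unfold chi
  rw [if_pos]
  by_contra h
  have : k ∈ (Multiplicative.toAdd x).support := Finsupp.mem_support_iff.2 h
  exact absurd (hN this) (by omega)

/-- the size of `H k` -/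
def N (k : ℕ) : ℂ := ((H k).card : ℂ)

lemma N_ne (k : ℕ) : N k ≠ 0 := by
  have : (H k).card ≠ 0 := Finset.card_ne_zero_of_mem (one_mem_H k)
  unfold N
  exact_mod_cast this

/-- the element with Fourier transform the indicator of the characters trivial on the first `k`
coordinates and nontrivial on the next one -/
def PP (k : ℕ) (x : G) : ℂ := if x ∈ H (k + 1) then chi k x / N (k + 1) else 0

lemma PP_mul_of_lt {j k : ℕ} (h : j < k) (x : G) : PP k (d j * x) = PP k x := by
  unfold PP
  have h1 : d j ∈ H (k + 1) := d_mem_H (by omega)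
  simp only [mul_mem_H_iff h1, chi_mul, chi_d_ne (Nat.ne_of_lt h), one_mul]

lemma PP_mul_self (k : ℕ) (x : G) : PP k (d k * x) = - PP k x := by
  unfold PP
  have h1 : d k ∈ H (k + 1) := d_mem_H (by omega)
  simp only [mul_mem_H_iff h1, chi_mul, chi_d_self]
  split_ifs
  · ring
  · simp

lemma norm_PP_le (k : ℕ) (x : G) : ‖PP k x‖ ≤ 1 := by
  unfold PP
  split_ifs
  · rw [norm_div, norm_chi]
    unfold N
    rw [Complex.norm_natCast]
    have : 1 ≤ (H (k + 1)).card := Finset.card_pos.2 ⟨1, one_mem_H _⟩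
    have h2 : (1 : ℝ) ≤ ((H (k + 1)).card : ℝ) := by exact_mod_cast this
    exact div_le_one_of_le₀ h2 (by positivity)
  · simp

lemma PP_summable (k : ℕ) : Summable fun x => ‖PP k x‖ := by
  refine summable_of_ne_finset_zero (s := H (k + 1)) fun x hx => ?_
  simp [PP, hx]

lemma tsum_norm_PP (k : ℕ) : ∑' x, ‖PP k x‖ = 1 := by
  rw [tsum_eq_sum (s := H (k + 1)) (fun x hx => by simp [PP, hx])]
  rw [Finset.sum_congr rfl (g := fun _ => 1 / ((H (k + 1)).card : ℝ))]
  · rw [Finset.sum_const, nsmul_eq_mul]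
    have h : ((H (k + 1)).card : ℝ) ≠ 0 := by
      have : (H (k + 1)).card ≠ 0 := Finset.card_ne_zero_of_mem (one_mem_H _)
      exact_mod_cast this
    field_simp
  · intro x hx
    simp only [PP, hx, if_true, norm_div, norm_chi, N, Complex.norm_natCast]

/-- The Fourier coefficient of a summable function at the coordinate character. -/
def ft (f : G → ℂ) (k : ℕ) : ℂ := ∑' x, f x * chi k x

lemma summable_mul_chi {f : G → ℂ} (hf : Summable fun x => ‖f x‖) (k : ℕ) :
    Summable fun x => f x * chi k x := by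
  apply Summable.of_norm
  refine hf.congr fun x => ?_
  rw [norm_mul, norm_chi, mul_one]

lemma ft_shift (f : G → ℂ) (k : ℕ) (a : G) :
    ft (fun x => f (a * x)) k = chi k a * ft f k := by
  unfold ft
  have h := (Equiv.mulLeft a).tsum_eq (fun x => f x * (chi k a * chi k x))
  have h2 : ∀ x, f (a * x) * chi k x = f (Equiv.mulLeft a x) * (chi k a * chi k (Equiv.mulLeft a x)) := by
    intro x
    rw [Equiv.coe_mulLeft, chi_mul, ← mul_assoc (chi k a), chi_sq, one_mul]
  rw [tsum_congr h2, h, ← tsum_mul_left]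
  refine tsum_congr fun x => ?_
  ring

lemma ft_PP_self (k : ℕ) : ft (PP k) k = 1 := by
  unfold ft
  rw [tsum_eq_sum (s := H (k + 1)) (fun x hx => by simp [PP, hx])]
  rw [Finset.sum_congr rfl (g := fun _ => 1 / N (k + 1))]
  · rw [Finset.sum_const, nsmul_eq_mul]
    have h := N_ne (k + 1)
    show N (k + 1) * (1 / N (k + 1)) = 1
    field_simp
  · intro x hx
    simp only [PP, hx, if_true]
    rw [div_mul_eq_mul_div, chi_sq]

lemma ft_PP_ne {j k : ℕ} (h : j ≠ k) : ft (PP k) j = 0 := by
  rcases Nat.lt_or_gt_of_ne h with h1 | h1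
  · have h2 := ft_shift (PP k) j (d j)
    have h3 : (fun x => PP k (d j * x)) = PP k := funext fun x => PP_mul_of_lt h1 x
    rw [h3, chi_d_self] at h2
    have : (2 : ℂ) * ft (PP k) j = 0 := by linear_combination h2
    simpa using this
  · have h2 := ft_shift (PP k) j (d k)
    have h3 : (fun x => PP k (d k * x)) = fun x => - PP k x := funext fun x => PP_mul_self k x
    rw [h3, chi_d_ne (Nat.ne_of_lt h1)] at h2
    have h4 : ft (fun x => - PP k x) j = - ft (PP k) j := by
      unfold ft
      rw [← tsum_neg]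
      exact tsum_congr fun x => by ring
    rw [h4] at h2
    have : (2 : ℂ) * ft (PP k) j = 0 := by linear_combination -h2
    simpa using this

/-- the total sum -/
def tot (f : G → ℂ) : ℂ := ∑' x, f x

lemma ft_tendsto {f : G → ℂ} (hf : Summable fun x => ‖f x‖) :
    Tendsto (fun k => ft f k) atTop (𝓝 (tot f)) := by
  unfold ft tot
  refine tendsto_tsum_of_dominated_convergence hf (fun x => ?_) ?_
  · refine tendsto_const_nhds.congr' ?_
    filter_upwards [chi_eventually x] with k hk
    rw [hk, mul_one]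
  · refine Eventually.of_forall fun k x => ?_
    rw [norm_mul, norm_chi, mul_one]

end

end Pool.Agent.X189.MG
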